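import Pool.Agent.W710.DP.Stm1

/-! DP-PUSH: pushing the class down. -/

set_option autoImplicit false

namespace Pool.Agent.W197.DP

open Pool.Agent.W710.DP Finsupp

/-! ### chains -/

theorem bdL_support {Z : Type} : ∀ (s t : List Z), t ∈ (bdL s).support →
    t.length + 1 = s.length ∧ ∀ p ∈ t, p ∈ s
  | [], t, h => by simp [bdL] at h
  | x :: s, t, h => by
    classical
    rw [bdL] at h
    rcases Finset.mem_union.1 (Finsupp.support_add h) with h | h
    · have h' : t = s := by
        have := Finsupp.support_single_subset h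
        simpa using this
      subst h'
      exact ⟨by simp, fun p hp => List.mem_cons_of_mem _ hp⟩
    · rcases Finset.mem_image.1 (Finsupp.mapDomain_support h) with ⟨u, hu, rfl⟩
      have ⟨h1, h2⟩ := bdL_support s u hu
      refine ⟨by simp; omega, ?_⟩
      intro p hp
      rcases List.mem_cons.1 hp with rfl | hp
      · simp
      · exact List.mem_cons_of_mem _ (h2 p hp)

theorem bd_support {Z : Type} (z : List Z →₀ ZMod 2) (t : List Z) (h : t ∈ (bd z).support) :
    ∃ s ∈ z.support, t.length + 1 = s.length ∧ ∀ p ∈ t, p ∈ s := by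
  classical
  rw [bd, Finsupp.linearCombination_apply] at h
  rcases Finset.mem_biUnion.1 (Finsupp.support_sum h) with ⟨s, hs, h2⟩
  refine ⟨s, hs, ?_⟩
  exact bdL_support s t (Finsupp.support_smul h2)

theorem mapc_bdL {X Y : Type} (f : X → Y) : ∀ s : List X,
    mapc f (bdL s) = bdL (s.map f)
  | [] => by simp [mapc, bdL]
  | x :: s => by
    have ih := mapc_bdL f s
    unfold mapc at ih ⊢
    rw [List.map_cons, bdL, bdL, Finsupp.mapDomain_add, Finsupp.mapDomain_single,
      ← Finsupp.mapDomain_comp, ← ih, ← Finsupp.mapDomain_comp]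
    rfl

theorem bd_mapc {X Y : Type} (f : X → Y) (z : List X →₀ ZMod 2) :
    bd (mapc f z) = mapc f (bd z) := by
  induction z using Finsupp.induction_linear with
  | zero => simp [mapc]
  | add z1 z2 h1 h2 =>
    have h3 : mapc f (z1 + z2) = mapc f z1 + mapc f z2 := by simp [mapc, Finsupp.mapDomain_add]
    have h4 : ∀ u v : List X →₀ ZMod 2, mapc f (u + v) = mapc f u + mapc f v := by
      intro u v; simp [mapc, Finsupp.mapDomain_add]
    rw [h3, map_add, map_add, h1, h2, h4]
  | single s c =>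
    have h1 : mapc f (single s c) = single (s.map f) c := by simp [mapc]
    have h2 : bd (single (s.map f) c) = c • bdL (s.map f) := by simp [bd]
    have h3 : bd (single s c) = c • bdL s := by simp [bd]
    rw [h1, h2, h3, ← mapc_bdL]
    unfold mapc
    rw [Finsupp.mapDomain_smul]

theorem mapc_support {X Y : Type} (f : X → Y) (z : List X →₀ ZMod 2) (t : List Y)
    (h : t ∈ (mapc f z).support) : ∃ s ∈ z.support, t = s.map f := by
  classical
  rcases Finset.mem_image.1 (Finsupp.mapDomain_support h) with ⟨u, hu, rfl⟩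
  exact ⟨u, hu, rfl⟩

theorem ev_map {X Y : Type} (f : X → Y) : ∀ (hs : List (Y → ZMod 2)) (t : List X),
    ev hs (t.map f) = ev (hs.map (fun h => h ∘ f)) t
  | [], t => by simp [ev]
  | h :: hs, [] => by simp [ev]
  | h :: hs, [x] => by simp [ev]
  | h :: hs, x :: y :: t => by
    have := ev_map f hs (y :: t)
    simp only [List.map_cons] at this ⊢
    simp only [ev, Function.comp]
    rw [this]
    try rfl

theorem pr_mapc {X Y : Type} (f : X → Y) (hs : List (Y → ZMod 2)) (z : List X →₀ ZMod 2) :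
    pr (ev hs) (mapc f z) = pr (ev (hs.map (fun h => h ∘ f))) z := by
  unfold pr mapc
  rw [Finsupp.linearCombination_mapDomain]
  congr 2
  funext t
  exact ev_map f hs t

theorem hw_length (N : ℕ) : (hw N).length = N := by simp [hw]

theorem hw_getD (N i : ℕ) (h : i < N) : (hw N).getD i 0 = hy i := by
  simp [hw, List.getD, h]

theorem hwmap_getD {D : Cfg → Cfg} (N i : ℕ) (h : i < N) :
    ((hw N).map (fun h => h ∘ D)).getD i 0 = hy i ∘ D := by
  simp [hw, List.getD, h]

/-! ### iterates of the step -/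

section iter

variable {b T τ : ℝ} {w : List Letter}

theorem om_iter (h : StepOK τ b T w) (j : ℕ) : ∀ ζ, Om T w.length ζ →
    Om T w.length ((Dst τ b T w)^[j] ζ) := by
  induction j with
  | zero => intro ζ hζ; simpa using hζ
  | succ j ih =>
    intro ζ hζ
    rw [Function.iterate_succ_apply']
    exact h.2.1 _

theorem sw_step (h : StepOK τ b T w) (ζ : Cfg) (hζ : Om T w.length ζ) :
    Sw b w (Dst τ b T w ζ) ≤ Sw b w ζ := by
  have h1 := h.2.2.2.1 ζ hζ 0 (Nat.zero_le _)
  have h2 : 0 ≤ ((Dst τ b T w ζ).1 0 - ζ.1 0) ^ 2 / (2 * τ) := by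
    have := h.1
    positivity
  linarith

theorem sw_iter (h : StepOK τ b T w) {a0 a1 κ : ℝ} (hκ : 0 < κ)
    (hg : ∀ ζ, Om T w.length ζ → a0 ≤ Sw b w ζ → Sw b w ζ ≤ a1 →
      Sw b w (Dst τ b T w ζ) ≤ Sw b w ζ - κ) (j : ℕ) : ∀ ζ, Om T w.length ζ →
    Sw b w ζ ≤ a1 → Sw b w ((Dst τ b T w)^[j] ζ) ≤ max a0 (a1 - j * κ) := by
  induction j with
  | zero => intro ζ _ h1; simpa using Or.inr h1
  | succ j ih =>
    intro ζ hζ h1
    rw [Function.iterate_succ_apply']
    have h2 := ih ζ hζ h1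
    have h3 := om_iter h j ζ hζ
    set ξ := (Dst τ b T w)^[j] ζ with hξ
    by_cases h4 : a0 ≤ Sw b w ξ
    · have h5 : Sw b w ξ ≤ a1 ∨ a1 < Sw b w ξ := le_or_gt _ _
      rcases h5 with h5 | h5
      · have h6 := hg ξ h3 h4 h5
        rcases le_max_iff.1 h2 with h7 | h7
        · exact le_max_of_le_left (by linarith)
        · refine le_max_of_le_right ?_
          push_cast
          linarith
      · have h6 := sw_step h ξ h3
        rcases le_max_iff.1 h2 with h7 | h7
        · exact le_max_of_le_left (by linarith)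
        · exfalso
          have : 0 ≤ (j : ℝ) * κ := by positivity
          linarith
    · push Not at h4
      have h6 := sw_step h ξ h3
      exact le_max_of_le_left (by linarith)

theorem sw_iter_le (h : StepOK τ b T w) (j : ℕ) : ∀ ζ, Om T w.length ζ →
    Sw b w ((Dst τ b T w)^[j] ζ) ≤ Sw b w ζ := by
  induction j with
  | zero => intro ζ _; simp
  | succ j ih =>
    intro ζ hζ
    rw [Function.iterate_succ_apply']
    exact (sw_step h _ (om_iter h j ζ hζ)).trans (ih ζ hζ)

theorem close_iter {L : ℝ} (hL : 1 ≤ L) (hc : ∀ (ζ η : Cfg) (ε : ℝ), 0 ≤ ε →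
    Close w.length ε ζ η → Close w.length (L * ε) (Dst τ b T w ζ) (Dst τ b T w η)) (j : ℕ) :
    ∀ (ζ η : Cfg) (ε : ℝ), 0 ≤ ε → Close w.length ε ζ η →
      Close w.length (L ^ j * ε) ((Dst τ b T w)^[j] ζ) ((Dst τ b T w)^[j] η) := by
  induction j with
  | zero => intro ζ η ε _ h; simpa using h
  | succ j ih =>
    intro ζ η ε hε h
    rw [Function.iterate_succ_apply', Function.iterate_succ_apply', pow_succ', mul_assoc]
    exact hc _ _ _ (by positivity) (ih ζ η ε hε h)

theorem move_iter (h : StepOK τ b T w) (j : ℕ) : ∀ ζ, Om T w.length ζ → ∀ i ≤ w.length,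
    |((Dst τ b T w)^[j] ζ).1 i - ζ.1 i| ≤ j / 4 := by
  induction j with
  | zero => intro ζ _ i _; simp
  | succ j ih =>
    intro ζ hζ i hi
    rw [Function.iterate_succ_apply']
    have h1 := ih ζ hζ i hi
    have h2 := h.2.2.1 _ (om_iter h j ζ hζ) i hi
    rw [abs_le] at h1 h2 ⊢
    push_cast
    constructor <;> linarith [h1.1, h1.2, h2.1, h2.2]

end iter

theorem close_mono {N : ℕ} {ε δ : ℝ} (h : ε ≤ δ) {ζ η : Cfg} (hc : Close N ε ζ η) :
    Close N δ ζ η :=
  ⟨fun i hi => (hc.1 i hi).trans h, fun i hi => (hc.2 i hi).trans h⟩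

theorem NN_mono {b T : ℝ} {w : List Letter} {a a' : ℝ} (h : a ≤ a') (hn : NN b T w a) :
    NN b T w a' := by
  intro M ε hε
  obtain ⟨z, h1, h2, h3⟩ := hn M ε hε
  exact ⟨z, fun t ht => ⟨(h1 t ht).1, (h1 t ht).2.1, fun p hp =>
    ⟨((h1 t ht).2.2 p hp).1, ((h1 t ht).2.2 p hp).2.trans h⟩⟩, h2, h3⟩

/-- sign of the difference does not change -/
theorem hy_const {i : ℕ} {p q : Cfg} (h : |(q.1 (i + 1) - q.1 i) - (p.1 (i + 1) - p.1 i)| <
    |p.1 (i + 1) - p.1 i|) : hy i q = hy i p := by
  unfold hy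
  rcases le_or_gt 0 (p.1 (i + 1) - p.1 i) with h1 | h1
  · have h2 : 0 < p.1 (i + 1) - p.1 i := by
      rcases h1.lt_or_eq with h3 | h3
      · exact h3
      · rw [← h3] at h
        simp at h
        exact absurd h (not_lt.2 (abs_nonneg _))
    rw [abs_of_pos h2, abs_lt] at h
    rw [if_pos h2, if_pos (by linarith [h.1])]
  · rw [abs_of_neg h1, abs_lt] at h
    rw [if_neg (not_lt.2 h1.le), if_neg (not_lt.2 (by linarith [h.2]))]

theorem t_push (h1 : S_step) (h2 : S_gain) (h3 : S_far) (h4 : S_repl) : S_push := by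
  intro b T e w hP hG a0 a1 hN hn
  rcases le_total a1 a0 with h | ha
  · exact NN_mono h hn
  obtain ⟨τ, hτ⟩ := h1 b T e w hP hG
  obtain ⟨κ, hκ, hg⟩ := h2 b T e w hP hG τ hτ a0 a1 hN
  obtain ⟨L, hL, hc⟩ := hτ.2.2.2.2.2
  obtain ⟨k, hk⟩ := exists_nat_ge ((a1 - a0) / κ)
  have hk' : a1 - k * κ ≤ a0 := by
    rw [div_le_iff₀ hκ] at hk
    linarith
  set D : Cfg → Cfg := (Dst τ b T w)^[k] with hD
  intro M ε hε
  obtain ⟨M0, hM0⟩ := h3 b T e w hP hG (k + 2)
  have hLk : 0 < L ^ k := by positivity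
  obtain ⟨z, hz1, hz2, hz3⟩ := hn (max M M0) (min (ε / L ^ k) (1 / 4)) (by positivity)
  have hε1 : L ^ k * min (ε / L ^ k) (1 / 4) ≤ ε := by
    calc L ^ k * min (ε / L ^ k) (1 / 4) ≤ L ^ k * (ε / L ^ k) := by
          gcongr
          exact min_le_left _ _
      _ = ε := by field_simp
  refine ⟨mapc D z, ?_, ?_, ?_⟩
  · intro t ht
    obtain ⟨s, hs, rfl⟩ := mapc_support D z t ht
    obtain ⟨hs1, hs2, hs3⟩ := hz1 s hs
    refine ⟨by simpa using hs1, ?_, ?_⟩
    · intro p hp q hq
      obtain ⟨p', hp', rfl⟩ := List.mem_map.1 hp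
      obtain ⟨q', hq', rfl⟩ := List.mem_map.1 hq
      exact close_mono hε1 (close_iter hL hc k p' q' _ (by positivity) (hs2 p' hp' q' hq'))
    · intro p hp
      obtain ⟨p', hp', rfl⟩ := List.mem_map.1 hp
      refine ⟨om_iter hτ k p' (hs3 p' hp').1, ?_⟩
      have := sw_iter hτ hκ hg k p' (hs3 p' hp').1 (hs3 p' hp').2
      rw [max_eq_left hk'] at this
      exact this
  · intro t ht p hp
    rw [bd_mapc] at ht
    obtain ⟨s, hs, rfl⟩ := mapc_support D _ t ht
    obtain ⟨p', hp', rfl⟩ := List.mem_map.1 hp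
    obtain ⟨s', hs', _, hs2⟩ := bd_support z s hs
    have ho : Om T w.length p' := ((hz1 s' hs').2.2 p' (hs2 p' hp')).1
    have h5 := sw_iter_le hτ k p' ho
    have h6 := hz2 s hs p' hp'
    have h7 := le_max_left M M0
    linarith
  · rw [pr_mapc]
    rcases Nat.eq_zero_or_pos w.length with hw0 | hw0
    · rw [hw0] at hz3 ⊢
      simpa [hw] using hz3
    rw [← hz3]
    refine (h4 Cfg (hw w.length) ((hw w.length).map (fun h => h ∘ D)) z (by simp)
      (fun t ht => (hz1 t ht).1) ?_).symm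
    intro t ht
    obtain ⟨s, hs, hst, hts⟩ := bd_support z t ht
    have hlen := (hz1 s hs).1
    rw [hw_length] at hlen
    have htl : t.length = w.length := by omega
    obtain ⟨p0, hp0⟩ : ∃ p0, p0 ∈ t := by
      cases t with
      | nil => simp at htl; omega
      | cons x u => exact ⟨x, by simp⟩
    have ho0 : Om T w.length p0 := ((hz1 s hs).2.2 p0 (hts p0 hp0)).1
    have hq0 : Sw b w p0 ≤ -M0 := by
      have h6 := hz2 t ht p0 hp0
      have h7 := le_max_right M M0
      linarith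
    obtain ⟨i, hi, hYi⟩ := hM0 p0 ho0 hq0
    refine ⟨i, by rw [hw_length]; exact hi, hy i p0, ?_⟩
    intro q hq
    rw [hw_getD _ _ hi, hwmap_getD _ _ hi]
    have hcl : Close w.length (1 / 4) q p0 :=
      close_mono (min_le_right _ _) ((hz1 s hs).2.1 q (hts q hq) p0 (hts p0 hp0))
    have hoq : Om T w.length q := ((hz1 s hs).2.2 q (hts q hq)).1
    have c1 := hcl.1 i hi.le
    have c2 := hcl.1 (i + 1) hi
    have m1 := move_iter hτ k q hoq i hi.le
    have m2 := move_iter hτ k q hoq (i + 1) hi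
    rw [← hD] at m1 m2
    rw [abs_le] at c1 c2 m1 m2
    have hk0 : (0 : ℝ) ≤ k := Nat.cast_nonneg k
    constructor
    · apply hy_const
      refine lt_of_lt_of_le ?_ hYi
      rw [abs_lt]
      constructor <;> linarith [c1.1, c1.2, c2.1, c2.2]
    · show hy i (D q) = hy i p0
      apply hy_const
      refine lt_of_lt_of_le ?_ hYi
      rw [abs_lt]
      constructor <;> linarith [c1.1, c1.2, c2.1, c2.2, m1.1, m1.2, m2.1, m2.2]

end Pool.Agent.W197.DP
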